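import Pool.Agent.H4.NS.Key
import Pool.Agent.H86.UN.Loc

/-!
Automorphic loops in which `x (x y) = y` for all involutions `x` (the case `lambda = 1`): definitions.
-/

set_option autoImplicit false

namespace ALoop

open Equiv

variable {Q : Type*}

/-- `x (x y) = y` for all involutions `x` -/
def Lam1 (L : Q → Perm Q) (J : Perm Q) : Prop := ∀ x, J x = x → L x * L x = 1

/-- `c` is an inner mapping of odd order, inverted by `z_x = D_x J` (that is, by `D_x`) -/
structure OI (G : Subgroup (Perm Q)) (L : Q → Perm Q) (J : Perm Q) (e : Q) (x : Q) (c : Perm Q)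
    (n : ℕ) : Prop where
  Jx : J x = x
  mem : c ∈ Inn G e
  odd : Odd n
  pow : c ^ n = 1
  inv : D L J x * c * D L J x = c⁻¹

/-- `m(x,u) = (L_x R_u)^2` -/
def mm (L : Q → Perm Q) (J : Perm Q) (x u : Q) : Perm Q :=
  L x * (J * L u * J) * (L x * (J * L u * J))

/-- `c^* = L_x c L_x^-1` -/
def st (L : Q → Perm Q) (x : Q) (c : Perm Q) : Perm Q := L x * c * (L x)⁻¹

end ALoop
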