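import Pool.Agent.H73.LM.Def

/-! statements with sorry (not imported by any result) -/

set_option autoImplicit false
namespace ALoop
open Equiv
variable {Q : Type*} {G : Subgroup (Perm Q)} {L : Q → Perm Q} {J : Perm Q} {e : Q}
namespace AL

/-- R1 (any lambda): `c^-1 L_q^-1 (c c^*) L_q` commutes with `c` and with `D_x` -/
theorem R1 (h : AL G L J e) {x : Q} {c : Perm Q} {n : ℕ} (o : OI G L J e x c n) (q : Q) :
    (c⁻¹ * ((L q)⁻¹ * (c * st L x c) * L q)) * c = c * (c⁻¹ * ((L q)⁻¹ * (c * st L x c) * L q)) ∧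
    (c⁻¹ * ((L q)⁻¹ * (c * st L x c) * L q)) * D L J x =
      D L J x * (c⁻¹ * ((L q)⁻¹ * (c * st L x c) * L q)) := by sorry

/-- R2 (any lambda): the inner mapping `T = T_q`, `P_q = L_x^-1 c L_x` -/
theorem R2 (h : AL G L J e) {x : Q} {c : Perm Q} {n : ℕ} (o : OI G L J e x c n) :
    ∃ T : Perm Q, T * T = c⁻¹ * c⁻¹ ∧
      (∀ g ∈ Inn G e, g * ((L x)⁻¹ * c * L x) = ((L x)⁻¹ * c * L x) * g → g * T = T * g) ∧
      (∀ g ∈ Inn G e, g * ((L x)⁻¹ * c * L x) * g⁻¹ = ((L x)⁻¹ * c * L x)⁻¹ →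
        g * T * g⁻¹ = T⁻¹) := by sorry

/-- R2a -/
theorem R2a (h : AL G L J e) {x : Q} {c : Perm Q} {n : ℕ} (o : OI G L J e x c n) {g : Perm Q}
    (hg : g ∈ Inn G e) (hc : g * ((L x)⁻¹ * c * L x) = ((L x)⁻¹ * c * L x) * g) :
    g * c = c * g := by sorry

/-- R2b -/
theorem R2b (h : AL G L J e) {x : Q} {c : Perm Q} {n : ℕ} (o : OI G L J e x c n) {g : Perm Q}
    (hg : g ∈ Inn G e) (hc : g * ((L x)⁻¹ * c * L x) * g⁻¹ = ((L x)⁻¹ * c * L x)⁻¹) :
    g * c * g⁻¹ = c⁻¹ := by sorry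

/-- R3 (any lambda) -/
theorem R3 (h : AL G L J e) {x : Q} {c : Perm Q} {n : ℕ} (o : OI G L J e x c n) {g : Perm Q}
    (hg : g ∈ G) (hc : g * c = c * g) (hD : g * D L J x = D L J x * g) :
    g * st L x c = st L x c * g := by sorry

/-- R4: the elements `m(x,u)` -/
theorem R4 (h : AL G L J e) (hl : Lam1 L J) {x u : Q} (hx : J x = x) (hu : J u = u) :
    mm L J x u ∈ Inn G e ∧ mm L J x u x = x ∧ mm L J x u u = u ∧
    mm L J x u * mm L J x u = 1 ∧
    mm L J x u = (J * L x * J) * L u * ((J * L x * J) * L u) := by sorry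

/-- R4': the elements `m(x,u)` commute with `L_x`, `R_x`, `L_u`, `R_u` -/
theorem R4' (h : AL G L J e) (hl : Lam1 L J) {x u : Q} (hx : J x = x) (hu : J u = u) :
    mm L J x u * L x = L x * mm L J x u ∧ mm L J x u * L u = L u * mm L J x u ∧
    mm L J x u * (J * L x * J) = (J * L x * J) * mm L J x u ∧
    mm L J x u * (J * L u * J) = (J * L u * J) * mm L J x u := by sorry

/-- R5: `mu = m(cx,u) m(x,u)` -/
theorem R5 (h : AL G L J e) (hl : Lam1 L J) {x : Q} {c : Perm Q} {n : ℕ} (o : OI G L J e x c n)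
    {u : Q} (hu : J u = u) :
    (mm L J (c x) u * mm L J x u) ∈ Inn G e ∧
    (mm L J (c x) u * mm L J x u) ^ n = 1 ∧
    (mm L J (c x) u * mm L J x u) * c = c * (mm L J (c x) u * mm L J x u) ∧
    (mm L J (c x) u * mm L J x u) * st L x c = st L x c * (mm L J (c x) u * mm L J x u) ∧
    L u * (c * st L x c) * L u =
      (J * L x * J) * (mm L J (c x) u * mm L J x u) * (J * L x * J) * (c * st L x c) := by sorry

/-- R6: `m0 c^2 m0 = c^2 mu^-1 mu^z`, and `mu`, `mu^z` commute -/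
theorem R6 (h : AL G L J e) (hl : Lam1 L J) {x : Q} {c : Perm Q} {n : ℕ} (o : OI G L J e x c n)
    {u : Q} (hu : J u = u) {μ ζ : Perm Q} (hμ : μ = mm L J (c x) u * mm L J x u)
    (hζ : ζ = D L J x * J * μ * (D L J x * J)) :
    mm L J x u * (c * c) * mm L J x u = c * c * (μ⁻¹ * ζ) ∧ μ * ζ = ζ * μ := by sorry

/-- R7 (claim K) -/
theorem R7 (h : AL G L J e) (hl : Lam1 L J) {x : Q} {c : Perm Q} {n : ℕ} (o : OI G L J e x c n)
    {u : Q} (hu : J u = u) (hm : mm L J x u * c * mm L J x u = c⁻¹) : c = 1 := by sorry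

/-- R8 -/
theorem R8 (h : AL G L J e) (hl : Lam1 L J) {x : Q} {c : Perm Q} {n : ℕ} (o : OI G L J e x c n)
    {u : Q} (hu : J u = u) : L u * (c * st L x c) = (c * st L x c) * L u := by sorry

end AL

/-- R9a (Baer): a set `E` of involutions of a finite group, closed under conjugation, such that
the products of two elements have orders which are powers of two, generates a 2-group -/
theorem R9a {M : Type*} [Group M] [Finite M] (E : Set M) (h1 : ∀ x ∈ E, x * x = 1)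
    (h2 : ∀ g : M, ∀ x ∈ E, g * x * g⁻¹ ∈ E) (h3 : ∀ x ∈ E, ∀ y ∈ E, ∃ k : ℕ, (x * y) ^ 2 ^ k = 1) :
    IsPGroup 2 (Subgroup.closure E) := by sorry

namespace AL

/-- R9 -/
theorem R9 [Finite Q] (h : AL G L J e) (hcardQ : 2 ∣ Nat.card Q) :
    ∃ (x : Q) (c : Perm Q) (n : ℕ), x ≠ e ∧ c ≠ 1 ∧ OI G L J e x c n := by sorry

/-- R10 -/
theorem R10 [Finite Q] (h : AL G L J e) (hl : Lam1 L J) (hcardQ : 2 ∣ Nat.card Q) : Assoc L := by
  sorry

end AL
end ALoop
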